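import Mathlib
import Pool.Agent.helper7.Nil.Index

set_option autoImplicit false

open scoped Cardinal

namespace Pool.Agent.Results.MP_734462_al.NoUniversalNilAllFields

universe u

/-- Every element is nilpotent: for every `a` some power `a ^ (n + 1) = a * (a * (⋯ * a))` is
zero. -/
def IsNil (A : Type u) [NonUnitalRing A] : Prop :=
  ∀ a : A, ∃ n : ℕ, (fun x : A => a * x)^[n] a = 0

/-- **No universal nil algebra, over any field.** For every field `F` and every associative nil
`F`-algebra `A` of at most countable dimension there is an associative nil `F`-algebra `B` of at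
most countable dimension that is not a homomorphic image of `A`. -/
theorem result (F : Type u) [Field F] (A : Type u) [NonUnitalRing A] [Module F A]
    [IsScalarTower F A A] [SMulCommClass F A A] (hnil : IsNil A) (hrank : Module.rank F A ≤ ℵ₀) :
    ∃ (B : Type u) (_ : NonUnitalRing B) (_ : Module F B) (_ : IsScalarTower F B B)
      (_ : SMulCommClass F B B), IsNil B ∧ Module.rank F B ≤ ℵ₀ ∧
      ¬ ∃ f : A →ₙₐ[F] B, Function.Surjective f :=
  Pool.Agent.helper7.Nil.main F A hnil hrank

end Pool.Agent.Results.MP_734462_al.NoUniversalNilAllFields
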